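import Pool.Agent.helper14.XG.Spec

/-!
# Project xg (MP_51d945_co), row IN3 (helper29)
-/

set_option autoImplicit false

namespace Pool.Agent.XG

open Finset
open Pool.Agent.XT

theorem IN3_img {α β β' γ : Type*} [DecidableEq β] [DecidableEq β'] (Z : Finset α) (f : α → β)
    (f' : α → β') (g : α → γ) (S : β' → Finset γ) (k : ℕ)
    (hinj : ∀ z ∈ Z, ∀ z' ∈ Z, f' z = f' z' → g z = g z' → f z = f z')
    (hS : ∀ z ∈ Z, g z ∈ S (f' z)) (hk : ∀ z ∈ Z, (S (f' z)).card ≤ k) :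
    (Z.image f).card ≤ k * (Z.image f').card := by
  classical
  have h0 : ∀ a : {a // a ∈ Z.image f}, ∃ z ∈ Z, f z = a.1 := by
    rintro ⟨a, ha⟩
    obtain ⟨z, hz, hza⟩ := Finset.mem_image.1 ha
    exact ⟨z, hz, hza⟩
  choose c hc1 hc2 using h0
  have h1 : (Z.image f).card ≤ ((Z.image f').sigma S).card := by
    rw [← Finset.card_attach]
    refine Finset.card_le_card_of_injOn (fun a => ⟨f' (c a), g (c a)⟩) ?_ ?_
    · intro a _
      simp only [Finset.coe_sigma, Set.mem_sigma_iff, Finset.mem_coe]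
      exact ⟨Finset.mem_image_of_mem _ (hc1 a), hS _ (hc1 a)⟩
    · intro a _ b _ hab
      simp only [Sigma.mk.injEq] at hab
      have h2 := hinj _ (hc1 a) _ (hc1 b) hab.1 (eq_of_heq hab.2)
      rw [hc2, hc2] at h2
      exact Subtype.ext h2
  refine h1.trans ?_
  rw [Finset.card_sigma, mul_comm, ← smul_eq_mul]
  refine Finset.sum_le_card_nsmul _ _ _ ?_
  intro y hy
  obtain ⟨z, hz, rfl⟩ := Finset.mem_image.1 hy
  exact hk z hz

/-- The number of the 4-paths. -/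
theorem IN3_path {α : Type*} {n D : ℕ} (B : FS n) (hD : Dg B D) (Z : Finset α)
    (a l x m b : α → Fin n) (h : ∀ z ∈ Z, (a z, l z) ∈ B ∧ (x z, l z) ∈ B ∧ (x z, m z) ∈ B ∧
      (b z, m z) ∈ B) :
    (Z.image (fun z => (a z, l z, x z, m z, b z))).card ≤ n * D ^ 4 := by
  classical
  have h1 : (Z.image (fun z => (a z, l z, x z, m z, b z))).card ≤
      D * (Z.image (fun z => (a z, l z, x z, m z))).card := by
    refine IN3_img Z _ _ b (fun y => dL B y.2.2.2) D ?_ ?_ ?_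
    · intro z _ z' _ h1 h2
      simp only [Prod.mk.injEq] at h1 ⊢
      exact ⟨h1.1, h1.2.1, h1.2.2.1, h1.2.2.2, h2⟩
    · intro z hz
      simp only [dL, Finset.mem_filter, Finset.mem_univ, true_and]
      exact (h z hz).2.2.2
    · intro z _
      exact hD.lu _
  have h2 : (Z.image (fun z => (a z, l z, x z, m z))).card ≤
      D * (Z.image (fun z => (a z, l z, x z))).card := by
    refine IN3_img Z _ _ m (fun y => dP B y.2.2) D ?_ ?_ ?_
    · intro z _ z' _ h1 h2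
      simp only [Prod.mk.injEq] at h1 ⊢
      exact ⟨h1.1, h1.2.1, h1.2.2, h2⟩
    · intro z hz
      simp only [dP, Finset.mem_filter, Finset.mem_univ, true_and]
      exact (h z hz).2.2.1
    · intro z _
      exact hD.pu _
  have h3 : (Z.image (fun z => (a z, l z, x z))).card ≤
      D * (Z.image (fun z => (a z, l z))).card := by
    refine IN3_img Z _ _ x (fun y => dL B y.2) D ?_ ?_ ?_
    · intro z _ z' _ h1 h2
      simp only [Prod.mk.injEq] at h1 ⊢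
      exact ⟨h1.1, h1.2, h2⟩
    · intro z hz
      simp only [dL, Finset.mem_filter, Finset.mem_univ, true_and]
      exact (h z hz).2.1
    · intro z _
      exact hD.lu _
  have h4 : (Z.image (fun z => (a z, l z))).card ≤ D * (Z.image a).card := by
    refine IN3_img Z _ _ l (fun y => dP B y) D ?_ ?_ ?_
    · intro z _ z' _ h1 h2
      simp only [Prod.mk.injEq]
      exact ⟨h1, h2⟩
    · intro z hz
      simp only [dP, Finset.mem_filter, Finset.mem_univ, true_and]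
      exact (h z hz).1
    · intro z _
      exact hD.pu _
  have h5 : (Z.image a).card ≤ n := by
    refine (Finset.card_le_univ _).trans ?_
    rw [Fintype.card_fin]
  calc (Z.image (fun z => (a z, l z, x z, m z, b z))).card
      ≤ D * (Z.image (fun z => (a z, l z, x z, m z))).card := h1
    _ ≤ D * (D * (Z.image (fun z => (a z, l z, x z))).card) := Nat.mul_le_mul_left _ h2
    _ ≤ D * (D * (D * (Z.image (fun z => (a z, l z))).card)) :=
        Nat.mul_le_mul_left _ (Nat.mul_le_mul_left _ h3)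
    _ ≤ D * (D * (D * (D * (Z.image a).card))) :=
        Nat.mul_le_mul_left _ (Nat.mul_le_mul_left _ (Nat.mul_le_mul_left _ h4))
    _ ≤ D * (D * (D * (D * n))) :=
        Nat.mul_le_mul_left _ (Nat.mul_le_mul_left _ (Nat.mul_le_mul_left _
          (Nat.mul_le_mul_left _ h5)))
    _ = n * D ^ 4 := by ring

open Classical in
theorem IN3_a {n D : ℕ} (B : FS n) (Nr : Fin n → Fin n → Prop)
    (F : Fin n → Fin n → Finset (VV n)) (hS : Sy B Nr F) (hD : Dg B D) (t : ℝ)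
    (Z : Finset ((Fin n × Fin n) × (Fin n × Fin n × Fin n) × (Fin n × Fin n × Fin n)))
    (hT : ∀ z ∈ Z, Ty B Nr F t z.1.1 z.2.1.1 z.2.1.2.1 z.2.1.2.2 z.1.2 ∧
      Ty B Nr F t z.1.1 z.2.2.1 z.2.2.2.1 z.2.2.2.2 z.1.2 ∧
      Sum.inl z.2.2.2.1 ∈ F z.2.1.2.1 z.1.1) :
    Z.card ≤ KK * (KK * (6000 * (n * D ^ 4))) := by
  have h0 : Z.card = (Z.image id).card := by rw [Finset.image_id]
  have h1 : (Z.image id).card ≤ KK * (Z.image (fun z => (z.1, z.2.1, z.2.2.1, z.2.2.2.1))).card := by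
    refine IN3_img Z _ _ (fun z => z.2.2.2.2) (fun y => com B y.2.2.2 y.1.2) KK ?_ ?_ ?_
    · rintro ⟨z1, z2, z3, z4, z5⟩ _ ⟨w1, w2, w3, w4, w5⟩ _ h1 h2
      simp only [Prod.mk.injEq] at h1 h2
      simp only [id, Prod.mk.injEq]
      exact ⟨h1.1, h1.2.1, h1.2.2.1, h1.2.2.2, h2⟩
    · intro z hz
      obtain ⟨_, h2, _⟩ := hT z hz
      simp only [com, Finset.mem_filter, Finset.mem_univ, true_and]
      exact ⟨h2.2.2.2.2.1, h2.2.2.2.2.2.1⟩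
    · intro z hz
      obtain ⟨_, h2, _⟩ := hT z hz
      exact h2.2.1.2.2.2
  have h2 : (Z.image (fun z => (z.1, z.2.1, z.2.2.1, z.2.2.2.1))).card ≤
      KK * (Z.image (fun z => (z.1, z.2.1, z.2.2.2.1))).card := by
    refine IN3_img Z _ _ (fun z => z.2.2.1) (fun y => com B y.1.1 y.2.2) KK ?_ ?_ ?_
    · intro z _ w _ h1 h2
      simp only [Prod.mk.injEq] at h1 h2 ⊢
      exact ⟨h1.1, h1.2.1, h2, h1.2.2⟩
    · intro z hz
      obtain ⟨_, h2, _⟩ := hT z hz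
      simp only [com, Finset.mem_filter, Finset.mem_univ, true_and]
      exact ⟨h2.2.2.1, h2.2.2.2.1⟩
    · intro z hz
      obtain ⟨_, h2, _⟩ := hT z hz
      exact h2.1.2.2.2
  have h3 : (Z.image (fun z => (z.1, z.2.1, z.2.2.2.1))).card ≤
      6000 * (Z.image (fun z => (z.1.1, z.2.1.1, z.2.1.2.1, z.2.1.2.2, z.1.2))).card := by
    refine IN3_img Z _ _ (fun z => (Sum.inl z.2.2.2.1 : VV n)) (fun y => F y.2.2.1 y.1) 6000
      ?_ ?_ ?_
    · rintro ⟨⟨a, b⟩, ⟨l, x, m⟩, ⟨l', x', m'⟩⟩ _ ⟨⟨a1, b1⟩, ⟨l1, x1, m1⟩, ⟨l1', x1', m1'⟩⟩ _ h1 h2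
      simp only [Prod.mk.injEq, Sum.inl.injEq] at h1 h2 ⊢
      exact ⟨⟨h1.1, h1.2.2.2.2⟩, ⟨h1.2.1, h1.2.2.1, h1.2.2.2.1⟩, h2⟩
    · intro z hz
      exact (hT z hz).2.2
    · intro z _
      exact hS.fc _ _
  have h4 := IN3_path B hD Z (fun z => z.1.1) (fun z => z.2.1.1) (fun z => z.2.1.2.1)
    (fun z => z.2.1.2.2) (fun z => z.1.2) (by
      intro z hz
      obtain ⟨h1, _, _⟩ := hT z hz
      exact ⟨h1.2.2.1, h1.2.2.2.1, h1.2.2.2.2.1, h1.2.2.2.2.2.1⟩)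
  rw [h0]
  exact h1.trans (Nat.mul_le_mul_left _ (h2.trans (Nat.mul_le_mul_left _
    (h3.trans (Nat.mul_le_mul_left _ h4)))))

open Classical in
theorem IN3_b {n D : ℕ} (B : FS n) (Nr : Fin n → Fin n → Prop)
    (F : Fin n → Fin n → Finset (VV n)) (hS : Sy B Nr F) (hD : Dg B D) (t : ℝ)
    (Z : Finset ((Fin n × Fin n) × (Fin n × Fin n × Fin n) × (Fin n × Fin n × Fin n)))
    (hT : ∀ z ∈ Z, Ty B Nr F t z.1.1 z.2.1.1 z.2.1.2.1 z.2.1.2.2 z.1.2 ∧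
      Ty B Nr F t z.1.1 z.2.2.1 z.2.2.2.1 z.2.2.2.2 z.1.2 ∧
      Sum.inr z.2.2.1 ∈ F z.2.1.2.1 z.1.1) :
    Z.card ≤ KK * (⌊t⌋₊ * (6000 * (n * D ^ 4))) := by
  have h0 : Z.card = (Z.image id).card := by rw [Finset.image_id]
  have h1 : (Z.image id).card ≤ KK * (Z.image (fun z => (z.1, z.2.1, z.2.2.1, z.2.2.2.1))).card := by
    refine IN3_img Z _ _ (fun z => z.2.2.2.2) (fun y => com B y.2.2.2 y.1.2) KK ?_ ?_ ?_
    · rintro ⟨z1, z2, z3, z4, z5⟩ _ ⟨w1, w2, w3, w4, w5⟩ _ h1 h2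
      simp only [Prod.mk.injEq] at h1 h2
      simp only [id, Prod.mk.injEq]
      exact ⟨h1.1, h1.2.1, h1.2.2.1, h1.2.2.2, h2⟩
    · intro z hz
      obtain ⟨_, h2, _⟩ := hT z hz
      simp only [com, Finset.mem_filter, Finset.mem_univ, true_and]
      exact ⟨h2.2.2.2.2.1, h2.2.2.2.2.2.1⟩
    · intro z hz
      obtain ⟨_, h2, _⟩ := hT z hz
      exact h2.2.1.2.2.2
  have h2 : (Z.image (fun z => (z.1, z.2.1, z.2.2.1, z.2.2.2.1))).card ≤
      ⌊t⌋₊ * (Z.image (fun z => (z.1, z.2.1, z.2.2.1))).card := by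
    refine IN3_img Z _ _ (fun z => z.2.2.2.1) (fun y => NS B Nr y.2.2 y.1.2) ⌊t⌋₊ ?_ ?_ ?_
    · intro z _ w _ h1 h2
      simp only [Prod.mk.injEq] at h1 h2 ⊢
      exact ⟨h1.1, h1.2.1, h1.2.2, h2⟩
    · intro z hz
      obtain ⟨_, h2, _⟩ := hT z hz
      simp only [NS, Finset.mem_filter, Finset.mem_univ, true_and]
      exact ⟨h2.2.2.2.2.2.2.1, h2.2.2.2.1, h2.2.1⟩
    · intro z hz
      obtain ⟨_, h2, _⟩ := hT z hz
      exact Nat.le_floor h2.2.2.2.2.2.2.2.2.1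
  have h3 : (Z.image (fun z => (z.1, z.2.1, z.2.2.1))).card ≤
      6000 * (Z.image (fun z => (z.1.1, z.2.1.1, z.2.1.2.1, z.2.1.2.2, z.1.2))).card := by
    refine IN3_img Z _ _ (fun z => (Sum.inr z.2.2.1 : VV n)) (fun y => F y.2.2.1 y.1) 6000
      ?_ ?_ ?_
    · rintro ⟨⟨a, b⟩, ⟨l, x, m⟩, ⟨l', x', m'⟩⟩ _ ⟨⟨a1, b1⟩, ⟨l1, x1, m1⟩, ⟨l1', x1', m1'⟩⟩ _ h1 h2
      simp only [Prod.mk.injEq, Sum.inr.injEq] at h1 h2 ⊢
      exact ⟨⟨h1.1, h1.2.2.2.2⟩, ⟨h1.2.1, h1.2.2.1, h1.2.2.2.1⟩, h2⟩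
    · intro z hz
      exact (hT z hz).2.2
    · intro z _
      exact hS.fc _ _
  have h4 := IN3_path B hD Z (fun z => z.1.1) (fun z => z.2.1.1) (fun z => z.2.1.2.1)
    (fun z => z.2.1.2.2) (fun z => z.1.2) (by
      intro z hz
      obtain ⟨h1, _, _⟩ := hT z hz
      exact ⟨h1.2.2.1, h1.2.2.2.1, h1.2.2.2.2.1, h1.2.2.2.2.2.1⟩)
  rw [h0]
  exact h1.trans (Nat.mul_le_mul_left _ (h2.trans (Nat.mul_le_mul_left _
    (h3.trans (Nat.mul_le_mul_left _ h4)))))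

theorem IN3 : IN3_stmt := by
  classical
  intro n D B Nr F hS hD t ht Z hZ
  have hT : ∀ z ∈ Z, Ty B Nr F t z.1.1 z.2.1.1 z.2.1.2.1 z.2.1.2.2 z.1.2 ∧
      Ty B Nr F t z.1.1 z.2.2.1 z.2.2.2.1 z.2.2.2.2 z.1.2 ∧
      (Sum.inl z.2.2.2.1 ∈ F z.2.1.2.1 z.1.1 ∨ Sum.inr z.2.2.1 ∈ F z.2.1.2.1 z.1.1) := by
    intro z hz
    obtain ⟨h1, h2, h3⟩ := hZ z hz
    simp only [PP, Finset.mem_filter, Finset.mem_univ, true_and] at h1 h2
    exact ⟨h1, h2, h3⟩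
  have ha := IN3_a B Nr F hS hD t (Z.filter (fun z => Sum.inl z.2.2.2.1 ∈ F z.2.1.2.1 z.1.1)) (by
    intro z hz
    rw [Finset.mem_filter] at hz
    exact ⟨(hT z hz.1).1, (hT z hz.1).2.1, hz.2⟩)
  have hb := IN3_b B Nr F hS hD t (Z.filter (fun z => Sum.inr z.2.2.1 ∈ F z.2.1.2.1 z.1.1)) (by
    intro z hz
    rw [Finset.mem_filter] at hz
    exact ⟨(hT z hz.1).1, (hT z hz.1).2.1, hz.2⟩)
  have hc : Z.card ≤ (Z.filter (fun z => Sum.inl z.2.2.2.1 ∈ F z.2.1.2.1 z.1.1)).card +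
      (Z.filter (fun z => Sum.inr z.2.2.1 ∈ F z.2.1.2.1 z.1.1)).card := by
    refine (Finset.card_le_card ?_).trans (Finset.card_union_le _ _)
    intro z hz
    rw [Finset.mem_union, Finset.mem_filter, Finset.mem_filter]
    rcases (hT z hz).2.2 with h | h
    · exact Or.inl ⟨hz, h⟩
    · exact Or.inr ⟨hz, h⟩
  have h5 : Z.card ≤ KK * (KK * (6000 * (n * D ^ 4))) + KK * (⌊t⌋₊ * (6000 * (n * D ^ 4))) :=
    hc.trans (Nat.add_le_add ha hb)
  have h6 : (Z.card : ℝ) ≤ (KK : ℝ) * (KK * (6000 * (n * (D : ℝ) ^ 4))) +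
      KK * ((⌊t⌋₊ : ℝ) * (6000 * (n * (D : ℝ) ^ 4))) := by
    exact_mod_cast h5
  have h7 : (⌊t⌋₊ : ℝ) ≤ t := Nat.floor_le (by linarith)
  have hK : (1 : ℝ) ≤ KK := by
    have : 1 ≤ KK := by unfold KK; norm_num
    exact_mod_cast this
  have hX : (0 : ℝ) ≤ n * (D : ℝ) ^ 4 := by positivity
  have h13 : 12000 * (KK : ℝ) ^ 2 * t * n * (D : ℝ) ^ 4 =
      6000 * (KK : ℝ) ^ 2 * t * (n * (D : ℝ) ^ 4) + 6000 * (KK : ℝ) ^ 2 * t * (n * (D : ℝ) ^ 4) := by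
    ring
  rw [h13]
  generalize (n : ℝ) * (D : ℝ) ^ 4 = X at h6 hX ⊢
  have h8 : (⌊t⌋₊ : ℝ) * (6000 * X) ≤ t * (6000 * X) :=
    mul_le_mul_of_nonneg_right h7 (by positivity)
  have h9 : (KK : ℝ) * ((⌊t⌋₊ : ℝ) * (6000 * X)) ≤ KK * (t * (6000 * X)) :=
    mul_le_mul_of_nonneg_left h8 (by positivity)
  have h10 : (KK : ℝ) * (KK * (6000 * X)) ≤ 6000 * (KK : ℝ) ^ 2 * t * X := by
    have h11 : (0 : ℝ) ≤ 6000 * (KK : ℝ) ^ 2 * X := by positivity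
    nlinarith [mul_le_mul_of_nonneg_left ht h11]
  have h12 : (KK : ℝ) * (t * (6000 * X)) ≤ 6000 * (KK : ℝ) ^ 2 * t * X := by
    have h11 : (0 : ℝ) ≤ 6000 * (KK : ℝ) * t * X := by positivity
    nlinarith [mul_le_mul_of_nonneg_left hK h11]
  linarith

end Pool.Agent.XG
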